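import Mathlib

set_option autoImplicit false

namespace Pool.Agent.Results.MP_633f17_co.Disproof

open Finset

/-- `F`, `G` are cross-`(t,s)` on `[n]`. -/
def Cross (n t s : ℕ) (F G : Finset (Finset ℕ)) : Prop :=
  ∀ A ∈ F, ∀ B ∈ G, t ≤ (A ∩ B).card ∧ (A ∪ B).card ≤ n - s

/-- `m(n,t,s)`: the largest size of a family of subsets of `[n]` that is `t`-intersecting and
`s`-union. -/
noncomputable def maxFam (n t s : ℕ) : ℕ :=
  sSup {k : ℕ | ∃ F : Finset (Finset ℕ), F ⊆ (Icc 1 n).powerset ∧ Cross n t s F F ∧ F.card = k}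

lemma card_le_two (t s : ℕ) (F : Finset (Finset ℕ)) (h : Cross (t + s + 1) t s F F) :
    F.card ≤ 2 := by
  rw [← card_pair (show t ≠ t + 1 by omega)]
  apply card_le_card_of_injOn (fun A => A.card)
  · intro A hA
    have := h A hA A hA
    rw [inter_self, union_self] at this
    simp only [coe_insert, coe_singleton, Set.mem_insert_iff, Set.mem_singleton_iff]
    omega
  · intro A hA B hB hAB
    simp only at hAB
    have h1 := h A hA B hB
    have h2 := h A hA A hA
    rw [inter_self, union_self] at h2
    have h3 := card_union_add_card_inter A B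
    have e1 : A ∩ B = A := eq_of_subset_of_card_le inter_subset_left (by omega)
    have e2 : A ∩ B = B := eq_of_subset_of_card_le inter_subset_right (by omega)
    rw [← e1, e2]

theorem result (t s : ℕ) (ht : 3 ≤ t) (hs : 1 ≤ s) :
    ∃ F G : Finset (Finset ℕ), F ⊆ (Icc 1 (t + s + 1)).powerset ∧
      G ⊆ (Icc 1 (t + s + 1)).powerset ∧ Cross (t + s + 1) t s F G ∧
      maxFam (t + s + 1) t s ^ 2 < F.card * G.card := by
  have hT : (Icc 1 (t + 1)).card = t + 1 := by simp
  have hsub : Icc 1 (t + 1) ⊆ Icc 1 (t + s + 1) := Icc_subset_Icc_right (by omega)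
  refine ⟨{Icc 1 (t + 1)}, insert (Icc 1 (t + 1)) (powersetCard t (Icc 1 (t + 1))), ?_, ?_, ?_, ?_⟩
  · simpa using hsub
  · intro B hB
    rw [mem_insert, mem_powersetCard] at hB
    rw [mem_powerset]
    rcases hB with rfl | hB
    · exact hsub
    · exact hB.1.trans hsub
  · intro A hA B hB
    rw [mem_singleton] at hA
    subst hA
    rw [mem_insert, mem_powersetCard] at hB
    rcases hB with rfl | hB
    · rw [inter_self, union_self, hT]
      omega
    · rw [inter_eq_right.mpr hB.1, union_eq_left.mpr hB.1, hT, hB.2]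
      omega
  · have h1 : maxFam (t + s + 1) t s ≤ 2 := by
      apply csSup_le'
      rintro k ⟨F, -, hF, rfl⟩
      exact card_le_two t s F hF
    rw [card_singleton, card_insert_of_notMem, card_powersetCard, hT, Nat.choose_succ_self_right]
    · nlinarith
    · rw [mem_powersetCard, hT]
      omega

end Pool.Agent.Results.MP_633f17_co.Disproof
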